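import Pool.Agent.Y174.L4

/-!
MP_e23cd6_ag, Q1: abundance for pairs whose (logarithmic) cotangent sheaf is generated at the generic
point by multivalued 1-forms, modulo a subsheaf with a nonzero section of a power of its determinant.
-/

set_option autoImplicit false

open Pool.Agent.W619.TW Pool.Agent.W619.Y Pool.Agent.W619.PQ Pool.Agent.Y174 FF

namespace Pool.Agent.Results.MP_e23cd6_ag.MultivaluedForms

/-- Let `(V, B + Δ)` be a projective pair of dimension `d + r` with function field `K`, with real
multiplicities `δ v ≥ 0` of the prime divisors `v` over `V` (minus the discrepancy, if this is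
positive), and let `B` be a set of prime divisors over `V` with multiplicity `1` (`Bd v`), which is
empty if the pair is klt. Let `α 1, ..., α d` be linearly independent rational 1-forms and `a ≠ 0` a
rational function such that `a (α 1 ∧ ... ∧ α d) ^ m` is a section of `(Ω ^ d (log B)) ^ m` twisted by
`m Δ` (for instance `d = 0`; or the pull-back of a pluricanonical form of a base of dimension `d`),
and let `ω i` be finitely many multivalued 1-forms, with values in the algebraic closure of `K`,
regular along the divisors over `V` up to logarithmic poles along `B`, such that the `α l` and the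
`ω i` have no common kernel at the generic point. Then there is a finite Galois cover of `V`, with
function field `L`, on which there are `r` logarithmic 1-forms, with poles only over `B`, which
together with the pull-backs of the `α l` generate the cotangent sheaf at the generic point,
`κ (K_V + B + Δ) ≥ 0`, and for the pulled back pair on the cover `κ` is the same, and `ν` is at
least `ν (K_V + B + Δ)`. -/
theorem result {K : Type} [Field K] [Algebra ℂ K] [Algebra.EssFiniteType ℂ K] {d r m : ℕ}
    (hn : Algebra.trdeg ℂ K = (d + r : ℕ)) (hm : 1 ≤ m)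
    -- the pair
    {Bd : Place ℂ K → Prop} {δ : Place ℂ K → ℝ} (hδ : ∀ v, 0 ≤ δ v) (hB : ∀ v, Bd v → δ v = 1)
    -- the subsheaf
    {α : Fin d → (Derivation ℂ K K →ₗ[K] K)} (hα : LinearIndependent K α) {a : K} (ha : a ≠ 0)
    (hT : TensorLog (d + r) m Bd δ α a)
    -- the multivalued forms
    {ι : Type} [Finite ι] {ω : ι → (Derivation ℂ K K →ₗ[K] AlgebraicClosure K)}
    (hω : ∀ i, MultiLog (d + r) Bd (ω i))
    (hker : ∀ D : Derivation ℂ K K, (∀ l, α l D = 0) → (∀ i, ω i D = 0) → D = 0) :
    ∃ L : IntermediateField K (AlgebraicClosure K), FiniteDimensional K L ∧ IsGalois K L ∧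
      (∃ (α' : Fin d → (Derivation ℂ L L →ₗ[L] L)) (η : Fin r → (Derivation ℂ L L →ₗ[L] L)),
        (∀ l, IsPullForm (α l) (α' l)) ∧ LinearIndependent L (Fin.append α' η) ∧
        ∀ i, ∀ w : Place ℂ L, IsDivisorial w (d + r) → ∀ D : Derivation ℂ L L,
          LogFld (BdOn Bd) w D → w.Reg (η i D)) ∧
      PairKod ℂ K (d + r) δ 0 ∧ ∀ δL : Place ℂ L → ℝ, IsPull δ δL →
        (∀ b, PairKod ℂ K (d + r) δ b ↔ PairKod ℂ L (d + r) δL b) ∧
        ∀ b, PairNum ℂ L (d + r) δL b → PairNum ℂ K (d + r) δ b :=
  main_L2 ‹Algebra.EssFiniteType ℂ K› hn hm Bd δ hδ hB α hα a ha hT ω hω hker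

end Pool.Agent.Results.MP_e23cd6_ag.MultivaluedForms
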