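import Pool.Agent.Y174.OB.O10

/-!
MP_e23cd6_ag, Q1: abundance for projective pairs of any Kodaira dimension for which the symmetric
differentials of an orbifold (in the sense of Campana) below the pair have no common zeros over the
generic point of the geometric generic fibre of the Iitaka fibration.
-/

set_option autoImplicit false

open Pool.Agent.W619.TW Pool.Agent.W619.Y Pool.Agent.W619.PQ Pool.Agent.Y174 FF

namespace Pool.Agent.Results.MP_e23cd6_ag.OrbifoldDifferentials

/-- Let `(X, Δ)` be a projective pair with function field `K`, let `δ v` be minus the discrepancy of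
the prime divisor `v` over `X` (real multiplicities; `δ` is bounded by finitely many rational
functions, `hG`), and let `X → W` be an algebraic fibre space, `W` with function field `L`,
`dim W = d`, `dim X = d + (r + 1)`, for instance the Iitaka fibration of `K_X + Δ`. Let `(F, Δ_F)` be
the geometric generic fibre, over the algebraic closure `Λ` of `L`, with multiplicities `δF`. Let `δ0`
be an orbifold divisor (multiplicities `1` or `1 - 1 / q`) with `δ0 ≤ δF`, such that the symmetric
differentials of positive degrees of the orbifold `(F, δ0)` have no common zeros at the geometric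
generic point, that is, the stable base locus of the tautological line bundle of its projectivized
tangent bundle does not dominate `F`. Then `κ (K_F + Δ_F) ≥ 0`; and if `κ (K_F + Δ_F) < 1`, there is
a finite Galois cover of `F`, with function field `M`, such that the orbifold cotangent sheaf of
`(F, δ0)` is generated at the generic point by orbifold 1-forms with values in `M`, there are `r + 1`
independent logarithmic 1-forms on `M` with poles only over the divisors with `δ0 = 1`, so `M` is of
maximal Albanese dimension if there are none, as it is for klt pairs, `κ (K_F + Δ_F)` is `κ` of the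
pulled back pair `(M, Δ_M)`, `ν (K_F + Δ_F) ≤ ν (K_M + Δ_M)` and
`ν (K_X + Δ) ≤ dim W + ν (K_M + Δ_M)`. -/
theorem result {L K Λ F : Type} [Field L] [Field K] [Field Λ] [Field F]
    -- the function fields of `W` and `X`
    [Algebra ℂ L] [Algebra ℂ K] [Algebra L K] [IsScalarTower ℂ L K]
    [Algebra.EssFiniteType ℂ L] [Algebra.EssFiniteType ℂ K] {d r : ℕ}
    (hW : Algebra.trdeg ℂ L = d) (hX : Algebra.trdeg ℂ K = (d + (r + 1) : ℕ))
    (hLK : ∀ x : K, IsAlgebraic L x → x ∈ Set.range (algebraMap L K))
    -- the geometric generic fibre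
    [Algebra L Λ] [IsAlgClosure L Λ] [Algebra Λ F] [Algebra K F] [Algebra L F]
    [IsScalarTower L Λ F] [IsScalarTower L K F] [Algebra ℂ Λ] [Algebra ℂ F]
    [IsScalarTower ℂ L Λ] [IsScalarTower ℂ Λ F] [IsScalarTower ℂ K F]
    (hF : IntermediateField.adjoin Λ (Set.range (algebraMap K F)) = ⊤)
    -- the multiplicities of the pair and of its restriction to the geometric generic fibre
    {δ : Place ℂ K → ℝ} {G : Finset K}
    (hG : ∀ v : Place ℂ K, IsDivisorial v (d + (r + 1)) → ∃ g ∈ G, g ≠ 0 ∧ δ v ≤ (v.ord g : ℝ))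
    {δF : Place Λ F → ℝ} (hδF : IsPullFib δ δF)
    -- the orbifold
    {δ0 : Place Λ F → ℝ} (hO : IsOrb δ0) (hle : ∀ w, δ0 w ≤ δF w) (h : NoBaseOrb Λ F (r + 1) δ0) :
    PairKod Λ F (r + 1) δF 0 ∧
    (¬ PairKod Λ F (r + 1) δF 1 →
      ∃ M : IntermediateField F (AlgebraicClosure F), FiniteDimensional F M ∧ IsGalois F M ∧
        (∃ ω : Fin (r + 1) → (Derivation Λ F F →ₗ[F] M), LinearIndependent M ω ∧
          ∀ i, OrbForm (r + 1) δ0 (ω i)) ∧
        (∃ η : Fin (r + 1) → (Derivation Λ M M →ₗ[M] M), LinearIndependent M η ∧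
          ∀ i, ∀ w : Place Λ M, IsDivisorial w (r + 1) → ∀ D : Derivation Λ M M,
            LogFld (BdOn fun v => δ0 v = 1) w D → w.Reg (η i D)) ∧
        ((∀ w, δ0 w ≠ 1) → MaxAlb Λ M (r + 1)) ∧
        ∀ δM : Place Λ M → ℝ, IsPull δF δM →
          (∀ a, PairKod Λ F (r + 1) δF a ↔ PairKod Λ M (r + 1) δM a) ∧
          ∀ a, PairNum Λ M (r + 1) δM a →
            PairNum Λ F (r + 1) δF a ∧ PairNum ℂ K (d + (r + 1)) δ (d + a)) := by
  have h1 : IsAlgClosed Λ := IsAlgClosure.isAlgClosed L
  have h2 : Algebra.IsAlgebraic L Λ := IsAlgClosure.isAlgebraic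
  have hL0 : CharZero L := charZero_of_injective_algebraMap (algebraMap ℂ L).injective
  have hΛ0 : CharZero Λ := charZero_of_injective_algebraMap (algebraMap ℂ Λ).injective
  refine ⟨?_, fun hκ => ?_⟩
  · by_cases hκ : PairKod Λ F (r + 1) δF 1
    · exact OB.kod_mono hκ
    · obtain ⟨M, -, -, -, -, h3, -⟩ := OB.main_base ‹Algebra.EssFiniteType ℂ L›
        ‹Algebra.EssFiniteType ℂ K› hW hX hLK hF hG hδF hO hle hκ h
      exact h3
  · obtain ⟨M, h3, h4, h5, ⟨η, h6, h7⟩, -, h8⟩ := OB.main_base ‹Algebra.EssFiniteType ℂ L›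
      ‹Algebra.EssFiniteType ℂ K› hW hX hLK hF hG hδF hO hle hκ h
    refine ⟨M, h3, h4, h5, ⟨η, h6, h7⟩, fun hne => ⟨η, h6, fun i w hw D hD => ?_⟩, h8⟩
    refine h7 i w hw D ⟨fun _ => hD, fun hB => ?_⟩
    obtain ⟨v, e, -, hv⟩ := hB
    exact absurd hv (hne v)

end Pool.Agent.Results.MP_e23cd6_ag.OrbifoldDifferentials
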