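import Pool.Agent.X324.PA.Abp

/-!
# Abundance for pairs which are generically finite over a product of projective spaces

Let `(X, Δ)` be a projective pair (`X` normal, `Δ` an effective `ℚ`-divisor; for instance klt) and
`X ⇢ ∏ i, ℙ ^ (n i)` a generically finite dominant rational map, `i < r`. On the factors hyperplanes
`ℓ i k = 0`, `k < q i`, are given, arbitrary arrangements (general position is not assumed). The
number `v i k` is the multiplicity of the hyperplane `ℓ i k = 0` at a place of the function field
`K` of `X`. Suppose: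

* (lower bounds, at the prime divisors `P` of `X` only) for each factor let `g i` be one of the
  functions `(max v i k) / (n i + 2)` (the arrangement must not be reducible),
  `(max v i k) / (n i + 1)` (and does not consist of `n i + 2` hyperplanes in general position),
  or the (combinatorial) log discrepancy with respect to a log Calabi-Yau pair
  `(ℙ ^ (n i), ∑ w k H k)`. If not all `v i k` are zero at `P`, then `1 - Δ_P ≤ ∑ i, g i (v i)`, with
  strict inequality if the distinguished hyperplane `k0 i` of a factor `i ∈ I` has a positive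
  multiplicity at `P`;
* (upper bounds, at the places `P` over the prime divisors of the product; `m` is the
  ramification index, and `(X, Δ)` has at `P` a log discrepancy `≥ α ≥ 0`) for the factors `i ∉ I`
  there are weights `w i k ≥ 0` of the hyperplanes with the sum `n i + 1` such that
  `m ≤ α + ∑ k, w i k * v i k` if not all `v i k`, `k < q i`, are zero; and `m = 1 ≤ α` if all
  multiplicities `v i k` of all factors are zero and none of finitely many functions `f ∈ F`, which
  are pulled back from the product of the factors `i ∈ I`, has a zero or a pole at `P`.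
  So over the divisors which come from the product of the factors `i ∈ I` the ramification and the
  boundary are arbitrary (with log discrepancies `≥ 0`).

Then `κ(K_X + Δ) = ν(K_X + Δ) = ∑ i ∈ I, n i` (the numerical dimension with respect to any effective
integral divisor). If `(X, Δ)` is klt, this is equivalent to the existence of a good minimal model
(Gongyo-Lehmann), and if moreover `K_X + Δ` is nef it means that `K_X + Δ` is semiample (Kawamata).

The case `Δ = 0`, `X` with canonical singularities, is `MP_c2a5fc_ag.ProjectiveProductCovers`. With a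
boundary neither inequality is a condition on `X` alone: the ramification may be compensated by `Δ`.
For instance `X` may be the product of the projective spaces itself, blown up, with a boundary on the
arrangements and over the product of the factors `i ∈ I`, or any cover of it.

The proof: the lower bound for the Kodaira dimension is given by products of determinants of
logarithmic derivatives of the linear forms, with a weight on the bases of each arrangement
(`Pool.Agent.TH756.PN`, a library of the starting repository whose theorem on pairs had not been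
handed in). For the upper bound of the numerical dimension the traces to the product of the
sections of `m (K_X + Δ) + A` are polynomials whose degrees in the coordinates of the factors
`i ∉ I` are bounded, up to a denominator which does not depend on `m`; the orders of the sections at
the places which are exceptional over `X` are bounded by the discrepancies
(`Pool.Agent.Y191.disc_bound`).

The definitions of the Kodaira dimension and the numerical dimension are those of
`Pool.Agent.Y172`: `X` is given by the homogeneous coordinates `y` of its generic point, with values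
in `K`; the prime divisors of `X` are places `P` of `K`, `P.ord` is the order along `P`.
`LogDisc y N Δ P α` (`Pool.Agent.Y191.Disc`) says that the log discrepancy of `(X, Δ)` along `P` is at
least `α`: either `P` is a prime divisor of `X` and `α ≤ 1 - Δ P`, or a multiple of `K_X + Δ` is
Cartier at the centre of `P`, and the order of its generator along `P` is at least `α - 1`.
-/

set_option autoImplicit false

open FF Module MvPolynomial Pool.Agent.W602.Cov Pool.Agent.W602.GT Pool.Agent.TH152.AC
open Pool.Agent.Y172 Pool.Agent.Y191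

namespace Pool.Agent.Results.MP_e23cd6_ag.ProjectiveProductPairs

section bounds

variable {n q : ℕ}

/-- In suitable linear coordinates `X 0, ..., X n` each of the hyperplanes is one of `X j = 0` or
`X 0 + ... + X n = 0`. The arrangements with this property which are not reducible are, up to
repetitions, the arrangements of `n + 2` hyperplanes in general position. -/
def Simplicial (ℓ : Fin q → Form n) : Prop :=
  ∃ X : Basis (Fin (n + 1)) ℂ (Form n), ∀ i,
    (∃ c : ℂ, ℓ i = c • ∑ j, X j) ∨ ∃ (j : Fin (n + 1)) (c : ℂ), ℓ i = c • X j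

/-- `(ℙ ^ n, ∑ w k H k)` is a log Calabi-Yau pair with rational weights: `w` is a rational convex
combination of the vectors with entries `1` for the `n + 1` hyperplanes of a basis `B` (that is, of
`n + 1` linearly independent ones) and `0` for all others. -/
def LogCalabiYau (ℓ : Fin q → Form n) (w : Fin q → ℚ) : Prop :=
  ∃ p : Bases ℓ → ℕ, 0 < ∑ B, p B ∧ ∀ k, (∑ B, (p B : ℚ)) * w k =
    ∑ B, (p B : ℚ) * ((Finset.univ.filter fun a => B.1 a = k).card : ℚ)

/-- The maximum of the sums of the `v k` over the bases, minus the sum of the `w k * v k`. This is the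
log discrepancy of the pair `(ℙ ^ n, ∑ w k H k)` at the toric divisors over the projective space along
which the hyperplanes have the multiplicities `v k`, and a lower bound for it at all divisors with
these multiplicities. -/
noncomputable def logDiscrepancy (ℓ : Fin q → Form n) (w : Fin q → ℚ) (v : Fin q → ℕ) : ℚ :=
  ((Finset.univ.sup fun B : Bases ℓ => ∑ a, v (B.1 a) : ℕ) : ℚ) - ∑ k, w k * v k

/-- The lower bounds for one arrangement. -/
inductive Bound (ℓ : Fin q → Form n) : ((Fin q → ℕ) → ℚ) → Prop
  | irreducible : ¬ Reducible ℓ →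
      Bound ℓ fun v => ((Finset.univ.sup v : ℕ) : ℚ) / ((n + 2 : ℕ) : ℚ)
  | notSimplicial : ¬ Reducible ℓ → ¬ Simplicial ℓ →
      Bound ℓ fun v => ((Finset.univ.sup v : ℕ) : ℚ) / ((n + 1 : ℕ) : ℚ)
  | logCalabiYau (w : Fin q → ℚ) : LogCalabiYau ℓ w → Bound ℓ (logDiscrepancy ℓ w)

end bounds

/-- The value of a linear form at a vector over `K`. -/
noncomputable def form {n : ℕ} {K : Type} [Field K] [Algebra ℂ K] (φ : Form n)
    (x : Fin (n + 1) → K) : K := ∑ j, algebraMap ℂ K (φ (Pi.single j 1)) * x j

section divisors

variable {r : ℕ} {n q : Fin r → ℕ} {K : Type} [Field K] [Algebra ℂ K]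

/-- The affine coordinates of the product of the projective spaces. -/
noncomputable def affine (x : ∀ i, Fin (n i + 1) → K) (b : (i : Fin r) × Fin (n i)) : K :=
  x b.1 b.2.succ / x b.1 0

/-- The hyperplanes `ℓ i k` have the multiplicities `v i k` at `P`: their orders are `a i + v i k`,
where `a i` is the minimum of the orders of all linear forms on the `i`-th factor. -/
def Multiplicities (ℓ : ∀ i, Fin (q i) → Form (n i)) (x : ∀ i, Fin (n i + 1) → K)
    (P : Place ℂ K) (a : Fin r → ℤ) (v : ∀ i, Fin (q i) → ℕ) : Prop :=
  (∀ i (φ : Form (n i)), form φ (x i) = 0 ∨ a i ≤ P.ord (form φ (x i))) ∧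
    (∀ i, ∃ φ : Form (n i), form φ (x i) ≠ 0 ∧ P.ord (form φ (x i)) = a i) ∧
    ∀ i k, P.ord (form (ℓ i k) (x i)) = a i + v i k

/-- The degree of a polynomial in the affine coordinates of the `i`-th factor. -/
def degreeIn (i : Fin r) (f : MvPolynomial ((i : Fin r) × Fin (n i)) ℂ) : ℕ :=
  f.support.sup fun m => ∑ j : Fin (n i), m ⟨i, j⟩

/-- The place `P` of `K` lies over a prime divisor of the product of the projective spaces, with
ramification index `m`: over the hypersurface `p = 0`, `p` an irreducible polynomial in the affine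
coordinates, or over the hyperplane at infinity `x i 0 = 0` of the `i`-th factor. -/
def LiesOver (x : ∀ i, Fin (n i + 1) → K) (P : Place ℂ K) (m : ℕ) : Prop :=
  (∃ p : MvPolynomial ((i : Fin r) × Fin (n i)) ℂ, Irreducible p ∧
    P.ord (aeval (affine x) p) = m ∧ ∀ f, f ≠ 0 → 0 ≤ P.ord (aeval (affine x) f) ∧
      (P.ord (aeval (affine x) f) = 0 ↔ ¬ p ∣ f)) ∨
  (0 < m ∧ ∃ i, ∀ f, f ≠ 0 → P.ord (aeval (affine x) f) = - ((m : ℤ) * (degreeIn i f : ℤ)))

end divisors

/-- `(X, Δ)` is a projective pair of dimension `N`: `X` is normal, with generic point `y`, and `Δ` is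
an effective `ℚ`-divisor. -/
def IsPair {K : Type} [Field K] [Algebra ℂ K] {M : ℕ} (y : Fin (M + 1) → K) (N : ℕ)
    (Δ : Place ℂ K → ℚ) : Prop :=
  NormalModel y ∧ Algebra.trdeg ℂ K = N ∧ Effective y Δ

/-- **Abundance for pairs.** Let `(X, Δ)` be a projective pair of dimension `∑ i, n i` and
`X ⇢ ∏ i, ℙ ^ (n i)` a dominant rational map, let `g i` be lower bounds for the arrangements `ℓ i`
and let `I` be a set of factors. Suppose that at the prime divisors `P` of `X` at which some
multiplicity is positive `1 - Δ P ≤ ∑ i, g i (v i)`, and `1 - Δ P < ∑ i, g i (v i)` if the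
multiplicity of the distinguished hyperplane of a factor in `I` is positive, and that at each place
over a prime divisor of the product, with a log discrepancy `≥ α ≥ 0`, the ramification index `m`
satisfies `m ≤ α + ∑ k, w i k * v i k` for all `i ∉ I` with `v i ≠ 0`, for weights `w i k ≥ 0` with
the sum `n i + 1`, and `m = 1 ≤ α` if all `v i k` are zero, up to finitely many hypersurfaces which
are pulled back from the product of the factors in `I`. Then
`κ(K_X + Δ) = ν(K_X + Δ) = ∑ i ∈ I, n i`. -/
theorem result (r : ℕ) (hr : 1 ≤ r) (n q : Fin r → ℕ) (hn : ∀ i, 1 ≤ n i)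
    (ℓ : ∀ i, Fin (q i) → Form (n i)) (hℓ : ∀ i k, ℓ i k ≠ 0)
    (g : ∀ i, (Fin (q i) → ℕ) → ℚ) (hg : ∀ i, Bound (ℓ i) (g i))
    (I : Finset (Fin r)) (k0 : ∀ i, Fin (q i)) (w : ∀ i, Fin (q i) → ℚ)
    (hw0 : ∀ i, i ∉ I → ∀ k, 0 ≤ w i k) (hw1 : ∀ i, i ∉ I → ∑ k, w i k = (n i : ℚ) + 1)
    (F : Finset (MvPolynomial ((i : Fin r) × Fin (n i)) ℂ)) (hF0 : ∀ f ∈ F, f ≠ 0)
    (hF : ∀ f ∈ F, ∀ i, i ∉ I → degreeIn i f = 0)
    (K : Type) [Field K] [Algebra ℂ K] (M : ℕ) (y : Fin (M + 1) → K) (Δ : Place ℂ K → ℚ)
    (hy : IsPair y (∑ i, n i) Δ)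
    (x : ∀ i, Fin (n i + 1) → K) (hx : ∀ i, x i 0 ≠ 0)
    (hdom : IsTranscendenceBasis ℂ (affine x))
    (hlow : ∀ P, IsPrimeDivisor y P → ∀ (a : Fin r → ℤ) (v : ∀ i, Fin (q i) → ℕ),
      Multiplicities ℓ x P a v → (∃ i, v i ≠ 0) →
      1 - Δ P ≤ ∑ i, g i (v i) ∧ ((∃ i ∈ I, v i (k0 i) ≠ 0) → 1 - Δ P < ∑ i, g i (v i)))
    (hup : ∀ P, (∃ m, LiesOver x P m) → ∃ α : ℚ, 0 ≤ α ∧ LogDisc y (∑ i, n i) Δ P α ∧
      ∀ m, LiesOver x P m → ∀ (a : Fin r → ℤ) (v : ∀ i, Fin (q i) → ℕ),
      Multiplicities ℓ x P a v →
      ((∀ i, v i = 0) → (∀ f ∈ F, P.ord (aeval (affine x) f) = 0) → m = 1 ∧ 1 ≤ α) ∧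
        ∀ i, i ∉ I → v i ≠ 0 → (m : ℚ) ≤ α + ∑ k, w i k * v i k) :
    kodairaDim y (∑ i, n i) Δ = ((∑ i ∈ I, n i : ℕ) : WithBot ℕ) ∧
      ∀ A, Effective y A → Integral y A →
        numericalDim y (∑ i, n i) Δ A = ((∑ i ∈ I, n i : ℕ) : EReal) := by
  have hwtd : ∀ i, Pool.Agent.TH756.PN.Wtd (ℓ i) (g i) := by
    intro i
    obtain ⟨G, hG⟩ : ∃ G, G = g i := ⟨_, rfl⟩
    have h1 := hg i
    rw [← hG] at h1 ⊢
    cases h1 with
    | irreducible h2 =>
      exact Pool.Agent.TH756.PN.wtd_slack (by omega)
        (Pool.Agent.TH756.PR.slack_of_bnd (hn i) (hℓ i) h2 (Or.inl rfl))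
        (Pool.Agent.W392.CG.span_top (hn i) (ℓ i) h2)
    | notSimplicial h2 h3 =>
      exact Pool.Agent.TH756.PN.wtd_slack (by omega)
        (Pool.Agent.TH756.PR.slack_of_bnd (hn i) (hℓ i) h2 (Or.inr ⟨rfl, Or.inr h3⟩))
        (Pool.Agent.W392.CG.span_top (hn i) (ℓ i) h2)
    | logCalabiYau w h2 => exact Pool.Agent.TH756.PN.BasePt.wtd h2
  exact Pool.Agent.X324.PA.abundance_pair hr hn rfl hy.1 hy.2.1 hy.2.2 hℓ g hwtd I k0 w hw0 hw1 F
    hF0 hF hx hdom hlow hup

end Pool.Agent.Results.MP_e23cd6_ag.ProjectiveProductPairs
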